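import Pool.Agent.TH612.GS.Stm3

/-! GF-VQ: second moment of the partial sum of length at most `4 T` (adapted from the proof of `t_SP`
of helper503). -/

set_option autoImplicit false

namespace Pool.Agent.TH921.GF

open Complex Filter Topology MeasureTheory Set
open Pool.Agent.TH612.GS

noncomputable section

theorem t_VQ (h : S_MV) : S_VQ := by
  obtain ⟨C, hC, h⟩ := h
  refine ⟨8 * C, 4, by positivity, by norm_num, ?_⟩
  intro T N hT hN hNT
  have hT1 : (1:ℝ) ≤ T := by linarith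
  have hlog : 1 ≤ Real.log T := by
    rw [Real.le_log_iff_exp_le (by linarith)]
    have := Real.exp_one_lt_d9
    linarith
  have e : ∀ u : ℝ, PN N u = ∑ n ∈ Finset.Icc 1 N, (n : ℂ) ^ (-(1 / 2 : ℂ)) * (n : ℂ) ^ (-(I * (u : ℂ))) := by
    intro u
    unfold PN zN
    refine Finset.sum_congr rfl fun n hn => ?_
    have hn0 : (n : ℂ) ≠ 0 := by
      have := (Finset.mem_Icc.1 hn).1
      exact_mod_cast (by omega : n ≠ 0)
    rw [← Complex.cpow_add _ _ hn0]
    congr 1
    ring
  have g1 := h T N (fun n => (n : ℂ) ^ (-(1 / 2 : ℂ))) hT1 (by nlinarith)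
  simp_rw [e]
  refine g1.trans ?_
  have g2 : ∑ n ∈ Finset.Icc 1 N, (T + n) * ‖(n : ℂ) ^ (-(1 / 2 : ℂ))‖ ^ 2 ≤
      8 * (T * Real.log T) := by
    have g3 : ∀ n ∈ Finset.Icc 1 N, (T + n) * ‖(n : ℂ) ^ (-(1 / 2 : ℂ))‖ ^ 2 =
        T * (n : ℝ)⁻¹ + 1 := by
      intro n hn
      have hn0 : 0 < n := (Finset.mem_Icc.1 hn).1
      have hn0' : (0 : ℝ) < n := by exact_mod_cast hn0
      rw [Complex.norm_natCast_cpow_of_pos hn0, ← Real.rpow_natCast, ← Real.rpow_mul hn0'.le]
      have e3 : (-(1 / 2 : ℂ)).re * ((2 : ℕ) : ℝ) = -1 := by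
        norm_num
      rw [e3, Real.rpow_neg_one]
      field_simp
    rw [Finset.sum_congr rfl g3, Finset.sum_add_distrib, ← Finset.mul_sum]
    have g4 : ∑ n ∈ Finset.Icc 1 N, ((n : ℝ))⁻¹ ≤ 1 + Real.log N := by
      have := harmonic_le_one_add_log N
      rw [harmonic_eq_sum_Icc] at this
      push_cast at this
      exact this
    have g5 : Real.log N ≤ 2 * Real.log T := by
      have g8 : Real.log N ≤ Real.log (T ^ 2) :=
        Real.log_le_log (by exact_mod_cast (by omega : 0 < N)) (by nlinarith)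
      rw [Real.log_pow] at g8
      push_cast at g8
      exact g8
    have g6 : T * ∑ n ∈ Finset.Icc 1 N, ((n : ℝ))⁻¹ ≤ T * (1 + 2 * Real.log T) :=
      mul_le_mul_of_nonneg_left (by linarith) (by linarith)
    have g7 : ∑ n ∈ Finset.Icc 1 N, (1 : ℝ) = N := by simp
    rw [g7]
    nlinarith
  calc _ ≤ C * (8 * (T * Real.log T)) := mul_le_mul_of_nonneg_left g2 hC.le
    _ = _ := by ring

end

end Pool.Agent.TH921.GF
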